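import Pool.Agent.L0h94.SL.Bas

/-!
# Project SL, module LS2: points over `ℚ₂` with given square classes

The proof of `sq_of_mod8` is that of `padic_sq2` in `Pool/Agent/Y971/SG/Lq.lean`.
-/

set_option autoImplicit false

namespace Pool.Agent.L0h61.SL

open Pool.Agent.L0h94.RZ Pool.Agent.L0h94.SL Polynomial

lemma sq_of_mod8 {n : ℤ} (hn : n % 8 = 1) : IsSquare (n : ℚ_[2]) := by
  have e1 : ∀ w : ℤ_[2], (aeval w) (X ^ 2 - C (n : ℤ_[2]) : ℤ_[2][X]) = w ^ 2 - n := by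
    intro w; simp
  have e2 : ∀ w : ℤ_[2], (aeval w) (derivative (X ^ 2 - C (n : ℤ_[2]) : ℤ_[2][X])) = 2 * w := by
    intro w; simp; norm_num
  obtain ⟨z, hz, -⟩ := hensels_lemma (p := 2) (R := ℤ_[2]) (F := X ^ 2 - C (n : ℤ_[2]))
    (a := 1) (by
      rw [e1, e2]
      have h4 : ‖(2 : ℤ_[2])‖ = 2⁻¹ := by
        have := PadicInt.norm_p (p := 2)
        exact_mod_cast this
      have h3 : ‖((1 - n : ℤ) : ℤ_[2])‖ ≤ ((2 : ℕ) : ℝ) ^ (-(3 : ℕ) : ℤ) := by
        rw [PadicInt.norm_int_le_pow_iff_dvd]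
        push_cast
        omega
      push_cast at h3
      rw [one_pow, mul_one, h4]
      refine lt_of_le_of_lt h3 ?_
      norm_num)
  rw [e1] at hz
  have h6 := congrArg (fun w : ℤ_[2] => (w : ℚ_[2])) (sub_eq_zero.1 hz)
  push_cast at h6
  exact ⟨z, by rw [← h6]; ring⟩

/-- an integer which is `1` modulo `8` is the square of an element that is not zero -/
lemma sq8 {n : ℤ} (hn : ((n : ℤ) : ZMod 8) = 1) : ∃ t : ℚ_[2], t ≠ 0 ∧ (n : ℚ_[2]) = t ^ 2 := by
  have h1 : n % 8 = 1 := by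
    have h2 : ((n : ℤ) : ZMod 8) = ((1 : ℤ) : ZMod 8) := by rw [hn]; norm_num
    rw [ZMod.intCast_eq_intCast_iff_dvd_sub] at h2
    push_cast at h2
    omega
  obtain ⟨t, ht⟩ := sq_of_mod8 h1
  refine ⟨t, ?_, by rw [ht]; ring⟩
  rintro rfl
  have h3 : ((n : ℤ) : ℚ_[2]) = 0 := by rw [ht]; ring
  rw [Int.cast_eq_zero] at h3
  subst h3
  omega

lemma ne0 {n : ℤ} (hn : ((n : ℤ) : ZMod 8) = 1) : (n : ℚ_[2]) ≠ 0 := by
  obtain ⟨t, h1, h2⟩ := sq8 hn
  rw [h2]
  exact pow_ne_zero _ h1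

/-- `a` and `e` are in the same square class, up to a factor `4 ^ k` -/
def Sm (a e : ℤ) : Prop := ∃ (k : ℕ) (D : ℤ), a = 4 ^ k * D ∧ ((D * e : ℤ) : ZMod 8) = 1

lemma Sm.cls {a e : ℤ} (h : Sm a e) : ∃ t : ℚ_[2], t ≠ 0 ∧ (a : ℚ_[2]) = (e : ℚ_[2]) * t ^ 2 := by
  obtain ⟨k, D, rfl, h⟩ := h
  obtain ⟨s, hs, h2⟩ := sq8 h
  have h3 := ne0 h
  push_cast at h2 h3
  have he : (e : ℚ_[2]) ≠ 0 := right_ne_zero_of_mul h3
  refine ⟨2 ^ k * s / e, div_ne_zero (mul_ne_zero (pow_ne_zero _ two_ne_zero) hs) he, ?_⟩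
  rw [div_pow, mul_pow, ← h2]
  push_cast
  have h4 : ((2 : ℚ_[2]) ^ k) ^ 2 = 4 ^ k := by
    rw [← pow_mul, mul_comm, pow_mul]
    norm_num
  rw [h4]
  field_simp

/-- the point with `x = N / 4 ^ k` -/
lemma base (N : ℤ) (k : ℕ) (r c : Fin 3 → ℤ) (h : ∀ i, (((N - 4 ^ k * r i) * c i : ℤ) : ZMod 8) = 1) :
    LSK ℚ_[2] (fun i => (r i : ℚ_[2])) (fun i => (c i : ℚ_[2])) := by
  refine ⟨(N : ℚ_[2]) / 4 ^ k, fun i => ?_⟩
  obtain ⟨s, hs, h2⟩ := sq8 (h i)
  have h3 := ne0 (h i)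
  push_cast at h2 h3
  have he : (c i : ℚ_[2]) ≠ 0 := right_ne_zero_of_mul h3
  have h4 : ((2 : ℚ_[2]) ^ k) ^ 2 = 4 ^ k := by
    rw [← pow_mul, mul_comm, pow_mul]
    norm_num
  have h5 : (2 : ℚ_[2]) ^ k ≠ 0 := pow_ne_zero _ two_ne_zero
  have h6 : (4 : ℚ_[2]) ^ k ≠ 0 := pow_ne_zero _ (by norm_num)
  refine ⟨s / (c i * 2 ^ k), div_ne_zero hs (mul_ne_zero he h5), ?_⟩
  rw [div_pow, mul_pow, ← h2, h4]
  field_simp

/-- translation -/
lemma trans {r c e : Fin 3 → ℤ} (i j k : Fin 3) (hij : i ≠ j) (hik : i ≠ k) (hjk : j ≠ k)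
    (h1 : r i ≠ r j) (h2 : r i ≠ r k)
    (h : LSK ℚ_[2] (fun i => (r i : ℚ_[2])) (fun i => (c i : ℚ_[2])))
    (hs : ((c i * c j * c k : ℤ) : ZMod 8) = 1)
    (hi : Sm (c i * ((r i - r j) * (r i - r k))) (e i)) (hj : Sm (c j * (r i - r j)) (e j))
    (hk : Sm (c k * (r i - r k)) (e k)) :
    LSK ℚ_[2] (fun i => (r i : ℚ_[2])) (fun i => (e i : ℚ_[2])) := by
  have h3 := tcl (K := ℚ_[2]) hij hik hjk (by exact_mod_cast h1) (by exact_mod_cast h2) (by
    obtain ⟨s, hs1, hs2⟩ := sq8 hs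
    exact ⟨s, hs1, by rw [← hs2]; push_cast; ring⟩) h
  refine sqc h3 ?_
  intro n
  have hn : n = i ∨ n = j ∨ n = k := by
    revert hij hik hjk
    fin_cases i <;> fin_cases j <;> fin_cases k <;> fin_cases n <;> simp
  rcases hn with rfl | rfl | rfl
  · obtain ⟨t, ht1, ht2⟩ := hi.cls
    refine ⟨t, ht1, ?_⟩
    rw [← ht2]
    simp
  · obtain ⟨t, ht1, ht2⟩ := hj.cls
    refine ⟨t, ht1, ?_⟩
    rw [← ht2]
    simp [Ne.symm hij]
  · obtain ⟨t, ht1, ht2⟩ := hk.cls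
    refine ⟨t, ht1, ?_⟩
    rw [← ht2]
    simp [Ne.symm hik]

/-- square classes are all that matters (abbreviation) -/
abbrev SolT (r c : Fin 3 → ℤ) : Prop := LSK ℚ_[2] (fun i => (r i : ℚ_[2])) (fun i => (c i : ℚ_[2]))

section classes

variable {u w b e1 e2 e3 : ℤ}

lemma bas3 (N : ℤ) (k : ℕ) {r0 r1 r2 : ℤ} (h0 : (((N - 4 ^ k * r0) * e1 : ℤ) : ZMod 8) = 1)
    (h1 : (((N - 4 ^ k * r1) * e2 : ℤ) : ZMod 8) = 1)
    (h2 : (((N - 4 ^ k * r2) * e3 : ℤ) : ZMod 8) = 1) : SolT ![r0, r1, r2] ![e1, e2, e3] := by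
  refine base N k _ _ ?_
  intro i
  fin_cases i
  · exact h0
  · exact h1
  · exact h2

lemma fF1 (hw : w ≠ 0) (hwb : 4 * w ≠ b) (κ : ℤ) (hκ : SolT ![0, 4 * w, b] ![κ, κ, 1])
    (hκ2 : ((κ * κ * 1 : ℤ) : ZMod 8) = 1) (h1 : ((κ * w * e1 : ℤ) : ZMod 8) = 1)
    (h2 : ((κ * (w * (4 * w - b)) * e2 : ℤ) : ZMod 8) = 1)
    (h3 : (((4 * w - b) * e3 : ℤ) : ZMod 8) = 1) : SolT ![0, 4 * w, b] ![e1, e2, e3] := by
  refine trans 1 0 2 (by decide) (by decide) (by decide) ?_ ?_ hκ ?_ ?_ ?_ ?_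
  · show 4 * w ≠ 0
    omega
  · show 4 * w ≠ b
    exact hwb
  · exact hκ2
  · exact ⟨1, κ * (w * (4 * w - b)), by show κ * ((4 * w - 0) * (4 * w - b)) = _; ring, h2⟩
  · exact ⟨1, κ * w, by show κ * (4 * w - 0) = _; ring, h1⟩
  · exact ⟨0, 4 * w - b, by show 1 * (4 * w - b) = _; ring, h3⟩

lemma fF0 (hw : w ≠ 0) (hb : b ≠ 0) (κ : ℤ) (hκ : SolT ![0, 4 * w, b] ![κ, κ, 1])
    (hκ2 : ((κ * κ * 1 : ℤ) : ZMod 8) = 1) (h1 : ((κ * (w * b) * e1 : ℤ) : ZMod 8) = 1)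
    (h2 : ((-(κ * w) * e2 : ℤ) : ZMod 8) = 1)
    (h3 : ((-b * e3 : ℤ) : ZMod 8) = 1) : SolT ![0, 4 * w, b] ![e1, e2, e3] := by
  refine trans 0 1 2 (by decide) (by decide) (by decide) ?_ ?_ hκ ?_ ?_ ?_ ?_
  · show 0 ≠ 4 * w
    omega
  · show 0 ≠ b
    exact hb.symm
  · exact hκ2
  · exact ⟨1, κ * (w * b), by show κ * ((0 - 4 * w) * (0 - b)) = _; ring, h1⟩
  · exact ⟨1, -(κ * w), by show κ * (0 - 4 * w) = _; ring, h2⟩
  · exact ⟨0, -b, by show 1 * (0 - b) = _; ring, h3⟩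

lemma fF2 (hb : b ≠ 0) (hwb : 4 * w ≠ b) (κ : ℤ) (hκ : SolT ![0, 4 * w, b] ![κ, κ, 1])
    (hκ2 : ((κ * 1 * κ : ℤ) : ZMod 8) = 1) (h1 : ((κ * b * e1 : ℤ) : ZMod 8) = 1)
    (h2 : ((κ * (b - 4 * w) * e2 : ℤ) : ZMod 8) = 1)
    (h3 : ((b * (b - 4 * w) * e3 : ℤ) : ZMod 8) = 1) : SolT ![0, 4 * w, b] ![e1, e2, e3] := by
  refine trans 2 0 1 (by decide) (by decide) (by decide) ?_ ?_ hκ ?_ ?_ ?_ ?_
  · show b ≠ 0
    exact hb
  · show b ≠ 4 * w
    exact hwb.symm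
  · show ((1 * κ * κ : ℤ) : ZMod 8) = 1
    rw [← hκ2]; congr 1; ring
  · exact ⟨0, b * (b - 4 * w), by show 1 * ((b - 0) * (b - 4 * w)) = _; ring, h3⟩
  · exact ⟨0, κ * b, by show κ * (b - 0) = _; ring, h1⟩
  · exact ⟨0, κ * (b - 4 * w), by show κ * (b - 4 * w) = _; ring, h2⟩

lemma fT0 (hu : u ≠ 0) (hb : b ≠ 0) (κ : ℤ) (hκ : SolT ![0, u, b] ![1, κ, κ])
    (hκ2 : ((1 * κ * κ : ℤ) : ZMod 8) = 1) (h1 : ((u * b * e1 : ℤ) : ZMod 8) = 1)
    (h2 : ((-(κ * u) * e2 : ℤ) : ZMod 8) = 1)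
    (h3 : ((-(κ * b) * e3 : ℤ) : ZMod 8) = 1) : SolT ![0, u, b] ![e1, e2, e3] := by
  refine trans 0 1 2 (by decide) (by decide) (by decide) ?_ ?_ hκ ?_ ?_ ?_ ?_
  · show 0 ≠ u
    exact hu.symm
  · show 0 ≠ b
    exact hb.symm
  · exact hκ2
  · exact ⟨0, u * b, by show 1 * ((0 - u) * (0 - b)) = _; ring, h1⟩
  · exact ⟨0, -(κ * u), by show κ * (0 - u) = _; ring, h2⟩
  · exact ⟨0, -(κ * b), by show κ * (0 - b) = _; ring, h3⟩

lemma fT1 (hbu : b = u + 4 * w) (hu : u ≠ 0) (hw : w ≠ 0) (κ : ℤ)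
    (hκ : SolT ![0, u, b] ![1, κ, κ])
    (hκ2 : ((κ * 1 * κ : ℤ) : ZMod 8) = 1) (h1 : ((u * e1 : ℤ) : ZMod 8) = 1)
    (h2 : ((-(κ * (u * w)) * e2 : ℤ) : ZMod 8) = 1)
    (h3 : ((-(κ * w) * e3 : ℤ) : ZMod 8) = 1) : SolT ![0, u, b] ![e1, e2, e3] := by
  refine trans 1 0 2 (by decide) (by decide) (by decide) ?_ ?_ hκ ?_ ?_ ?_ ?_
  · show u ≠ 0
    exact hu
  · show u ≠ b
    omega
  · exact hκ2
  · exact ⟨1, -(κ * (u * w)), by show κ * ((u - 0) * (u - b)) = _; rw [hbu]; ring, h2⟩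
  · exact ⟨0, u, by show 1 * (u - 0) = _; ring, h1⟩
  · exact ⟨1, -(κ * w), by show κ * (u - b) = _; rw [hbu]; ring, h3⟩

lemma fT2 (hbu : b = u + 4 * w) (hb : b ≠ 0) (hw : w ≠ 0) (κ : ℤ)
    (hκ : SolT ![0, u, b] ![1, κ, κ])
    (hκ2 : ((κ * 1 * κ : ℤ) : ZMod 8) = 1) (h1 : ((b * e1 : ℤ) : ZMod 8) = 1)
    (h2 : ((κ * w * e2 : ℤ) : ZMod 8) = 1)
    (h3 : ((κ * (b * w) * e3 : ℤ) : ZMod 8) = 1) : SolT ![0, u, b] ![e1, e2, e3] := by
  refine trans 2 0 1 (by decide) (by decide) (by decide) ?_ ?_ hκ ?_ ?_ ?_ ?_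
  · show b ≠ 0
    exact hb
  · show b ≠ u
    omega
  · exact hκ2
  · refine ⟨1, κ * (b * w), ?_, h3⟩
    show κ * ((b - 0) * (b - u)) = _
    have : b - u = 4 * w := by omega
    rw [this]; ring
  · exact ⟨0, b, by show 1 * (b - 0) = _; ring, h1⟩
  · refine ⟨1, κ * w, ?_, h2⟩
    show κ * (b - u) = _
    have : b - u = 4 * w := by omega
    rw [this]; ring

end classes

lemma odd_cast {a : ℤ} (h : Odd a) : ((a : ℤ) : ZMod 8) = 1 ∨ ((a : ℤ) : ZMod 8) = 3 ∨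
    ((a : ℤ) : ZMod 8) = 5 ∨ ((a : ℤ) : ZMod 8) = 7 := by
  obtain ⟨m, rfl⟩ := h
  push_cast
  generalize ((m : ℤ) : ZMod 8) = x
  revert x
  decide

theorem ls2 : S_LS2 := by
  intro o u b w hG e1 e2 e3 hsq h1 h2 h3 h4
  obtain ⟨hb, -, hu, hw⟩ := hG
  -- residues
  have hu8 : ((u : ℤ) : ZMod 8) = 7 := by
    have : (u : ℤ) = 8 * (u / 8 : ℕ) + 7 := by omega
    rw [this]; push_cast
    have e : (8 : ZMod 8) = 0 := by decide
    rw [e]; ring
  have hw8 : ((w : ℤ) : ZMod 8) = 3 ∨ ((w : ℤ) : ZMod 8) = 7 := by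
    rcases (show w % 8 = 3 ∨ w % 8 = 7 by omega) with h | h
    · left
      have : (w : ℤ) = 8 * (w / 8 : ℕ) + 3 := by omega
      rw [this]; push_cast
      have e : (8 : ZMod 8) = 0 := by decide
      rw [e]; ring
    · right
      have : (w : ℤ) = 8 * (w / 8 : ℕ) + 7 := by omega
      rw [this]; push_cast
      have e : (8 : ZMod 8) = 0 := by decide
      rw [e]; ring
  have hbz : (b : ℤ) = u + 4 * w := by omega
  have hb8 : ((b : ℤ) : ZMod 8) = 3 := by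
    rw [hbz, Int.cast_add, hu8]
    push_cast at hw8 ⊢
    rcases hw8 with h | h <;> rw [h] <;> decide
  have hE1 := odd_cast h1
  have hE3 : ((e3 : ℤ) : ZMod 8) = 1 ∨ ((e3 : ℤ) : ZMod 8) = 5 := by
    rcases (show e3 % 8 = 1 ∨ e3 % 8 = 5 by omega) with h | h
    · left
      have : e3 = 8 * (e3 / 8) + 1 := by omega
      rw [this]; push_cast
      have e : (8 : ZMod 8) = 0 := by decide
      rw [e]; ring
    · right
      have : e3 = 8 * (e3 / 8) + 5 := by omega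
      rw [this]; push_cast
      have e : (8 : ZMod 8) = 0 := by decide
      rw [e]; ring
  have hE2 : ((e2 : ℤ) : ZMod 8) = ((e1 : ℤ) : ZMod 8) * ((e3 : ℤ) : ZMod 8) := by
    obtain ⟨s, hs⟩ := hsq
    have hodd : Odd (s * s) := by rw [← hs]; exact (h1.mul h2).mul h3
    have hso : Odd s := Int.odd_mul.1 hodd |>.1
    have hs8 := odd_cast hso
    have hE2' := odd_cast h2
    have h5 : ((e1 : ℤ) : ZMod 8) * ((e2 : ℤ) : ZMod 8) * ((e3 : ℤ) : ZMod 8) =
        ((s : ℤ) : ZMod 8) * ((s : ℤ) : ZMod 8) := by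
      rw [← Int.cast_mul, ← Int.cast_mul, hs, Int.cast_mul]
    rcases hE1 with a | a | a | a <;> rcases hE3 with c | c <;> rcases hE2' with d | d | d | d <;>
      rcases hs8 with f | f | f | f <;> rw [a, c, d, f] at h5 <;> first
      | (rw [a, c, d]; decide)
      | (exfalso; revert h5; decide)
  rw [locSol_iff]
  have hup : (0 : ℤ) < u := by omega
  have hwp : (0 : ℤ) < w := by omega
  have hbp : (0 : ℤ) < b := by omega
  have hwb : 4 * (w : ℤ) ≠ b := by omega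
  -- the eight classes
  cases o
  · -- roots `0`, `4 w`, `b`
    change SolT ![0, 4 * (w : ℤ), (b : ℤ)] ![e1, e2, e3]
    generalize (u : ℤ) = u' at *
    generalize (w : ℤ) = w' at *
    generalize (b : ℤ) = b' at *
    have b1 : SolT ![0, 4 * w', b'] ![1, 1, 1] := bas3 1 4 (by push_cast; decide)
      (by push_cast; rcases hw8 with h | h <;> rw [h] <;> decide) (by push_cast; rw [hb8]; decide)
    have b5 : SolT ![0, 4 * w', b'] ![5, 5, 1] := bas3 5 1 (by push_cast; decide)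
      (by push_cast; rcases hw8 with h | h <;> rw [h] <;> decide) (by push_cast; rw [hb8]; decide)
    rcases hw8 with hw8 | hw8 <;> rcases hE3 with c | c <;> rcases hE1 with a | a | a | a
    · rw [a, c] at hE2
      exact bas3 1 4 (by push_cast; rw [a]; decide) (by push_cast; rw [hw8, hE2]; decide)
        (by push_cast; rw [hb8, c]; decide)
    · rw [a, c] at hE2
      exact fF1 hwp.ne' hwb 1 b1 (by decide) (by push_cast; rw [hw8, a]; decide)
        (by push_cast; rw [hw8, hb8, hE2]; decide) (by push_cast; rw [hw8, hb8, c]; decide)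
    · rw [a, c] at hE2
      exact bas3 5 1 (by push_cast; rw [a]; decide) (by push_cast; rw [hw8, hE2]; decide)
        (by push_cast; rw [hb8, c]; decide)
    · rw [a, c] at hE2
      exact fF1 hwp.ne' hwb 5 b5 (by decide) (by push_cast; rw [hw8, a]; decide)
        (by push_cast; rw [hw8, hb8, hE2]; decide) (by push_cast; rw [hw8, hb8, c]; decide)
    · rw [a, c] at hE2
      exact fF0 hwp.ne' hbp.ne' 1 b1 (by decide) (by push_cast; rw [hw8, hb8, a]; decide)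
        (by push_cast; rw [hw8, hE2]; decide) (by push_cast; rw [hb8, c]; decide)
    · rw [a, c] at hE2
      exact fF2 hbp.ne' hwb 1 b1 (by decide) (by push_cast; rw [hb8, a]; decide)
        (by push_cast; rw [hw8, hb8, hE2]; decide) (by push_cast; rw [hw8, hb8, c]; decide)
    · rw [a, c] at hE2
      exact fF0 hwp.ne' hbp.ne' 5 b5 (by decide) (by push_cast; rw [hw8, hb8, a]; decide)
        (by push_cast; rw [hw8, hE2]; decide) (by push_cast; rw [hb8, c]; decide)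
    · rw [a, c] at hE2
      exact fF2 hbp.ne' hwb 5 b5 (by decide) (by push_cast; rw [hb8, a]; decide)
        (by push_cast; rw [hw8, hb8, hE2]; decide) (by push_cast; rw [hw8, hb8, c]; decide)
    · rw [a, c] at hE2
      exact bas3 1 4 (by push_cast; rw [a]; decide) (by push_cast; rw [hw8, hE2]; decide)
        (by push_cast; rw [hb8, c]; decide)
    · rw [a, c] at hE2
      exact fF1 hwp.ne' hwb 5 b5 (by decide) (by push_cast; rw [hw8, a]; decide)
        (by push_cast; rw [hw8, hb8, hE2]; decide) (by push_cast; rw [hw8, hb8, c]; decide)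
    · rw [a, c] at hE2
      exact bas3 5 1 (by push_cast; rw [a]; decide) (by push_cast; rw [hw8, hE2]; decide)
        (by push_cast; rw [hb8, c]; decide)
    · rw [a, c] at hE2
      exact fF1 hwp.ne' hwb 1 b1 (by decide) (by push_cast; rw [hw8, a]; decide)
        (by push_cast; rw [hw8, hb8, hE2]; decide) (by push_cast; rw [hw8, hb8, c]; decide)
    · rw [a, c] at hE2
      exact fF0 hwp.ne' hbp.ne' 5 b5 (by decide) (by push_cast; rw [hw8, hb8, a]; decide)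
        (by push_cast; rw [hw8, hE2]; decide) (by push_cast; rw [hb8, c]; decide)
    · rw [a, c] at hE2
      exact fF2 hbp.ne' hwb 1 b1 (by decide) (by push_cast; rw [hb8, a]; decide)
        (by push_cast; rw [hw8, hb8, hE2]; decide) (by push_cast; rw [hw8, hb8, c]; decide)
    · rw [a, c] at hE2
      exact fF0 hwp.ne' hbp.ne' 1 b1 (by decide) (by push_cast; rw [hw8, hb8, a]; decide)
        (by push_cast; rw [hw8, hE2]; decide) (by push_cast; rw [hb8, c]; decide)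
    · rw [a, c] at hE2
      exact fF2 hbp.ne' hwb 5 b5 (by decide) (by push_cast; rw [hb8, a]; decide)
        (by push_cast; rw [hw8, hb8, hE2]; decide) (by push_cast; rw [hw8, hb8, c]; decide)
  · -- roots `0`, `u`, `b`
    change SolT ![0, (u : ℤ), (b : ℤ)] ![e1, e2, e3]
    generalize (u : ℤ) = u' at *
    generalize (w : ℤ) = w' at *
    generalize (b : ℤ) = b' at *
    have b1 : SolT ![0, u', b'] ![1, 1, 1] := bas3 1 4 (by push_cast; decide)
      (by push_cast; rw [hu8]; decide) (by push_cast; rw [hb8]; decide)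
    have b5 : SolT ![0, u', b'] ![1, 5, 5] := bas3 1 1 (by push_cast; decide)
      (by push_cast; rw [hu8]; decide) (by push_cast; rw [hb8]; decide)
    rcases hw8 with hw8 | hw8 <;> rcases hE3 with c | c <;> rcases hE1 with a | a | a | a
    · rw [a, c] at hE2
      exact bas3 1 4 (by push_cast; rw [a]; decide) (by push_cast; rw [hu8, hE2]; decide)
        (by push_cast; rw [hb8, c]; decide)
    · rw [a, c] at hE2
      exact fT2 hbz hbp.ne' hwp.ne' 1 b1 (by decide) (by push_cast; rw [hb8, a]; decide)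
        (by push_cast; rw [hw8, hE2]; decide) (by push_cast; rw [hb8, hw8, c]; decide)
    · rw [a, c] at hE2
      exact fT0 hup.ne' hbp.ne' 5 b5 (by decide) (by push_cast; rw [hu8, hb8, a]; decide)
        (by push_cast; rw [hu8, hE2]; decide) (by push_cast; rw [hb8, c]; decide)
    · rw [a, c] at hE2
      exact fT1 hbz hup.ne' hwp.ne' 5 b5 (by decide) (by push_cast; rw [hu8, a]; decide)
        (by push_cast; rw [hu8, hw8, hE2]; decide) (by push_cast; rw [hw8, c]; decide)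
    · rw [a, c] at hE2
      exact bas3 1 1 (by push_cast; rw [a]; decide) (by push_cast; rw [hu8, hE2]; decide)
        (by push_cast; rw [hb8, c]; decide)
    · rw [a, c] at hE2
      exact fT2 hbz hbp.ne' hwp.ne' 5 b5 (by decide) (by push_cast; rw [hb8, a]; decide)
        (by push_cast; rw [hw8, hE2]; decide) (by push_cast; rw [hb8, hw8, c]; decide)
    · rw [a, c] at hE2
      exact fT0 hup.ne' hbp.ne' 1 b1 (by decide) (by push_cast; rw [hu8, hb8, a]; decide)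
        (by push_cast; rw [hu8, hE2]; decide) (by push_cast; rw [hb8, c]; decide)
    · rw [a, c] at hE2
      exact fT1 hbz hup.ne' hwp.ne' 1 b1 (by decide) (by push_cast; rw [hu8, a]; decide)
        (by push_cast; rw [hu8, hw8, hE2]; decide) (by push_cast; rw [hw8, c]; decide)
    · rw [a, c] at hE2
      exact bas3 1 4 (by push_cast; rw [a]; decide) (by push_cast; rw [hu8, hE2]; decide)
        (by push_cast; rw [hb8, c]; decide)
    · rw [a, c] at hE2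
      exact fT2 hbz hbp.ne' hwp.ne' 5 b5 (by decide) (by push_cast; rw [hb8, a]; decide)
        (by push_cast; rw [hw8, hE2]; decide) (by push_cast; rw [hb8, hw8, c]; decide)
    · rw [a, c] at hE2
      exact fT0 hup.ne' hbp.ne' 5 b5 (by decide) (by push_cast; rw [hu8, hb8, a]; decide)
        (by push_cast; rw [hu8, hE2]; decide) (by push_cast; rw [hb8, c]; decide)
    · rw [a, c] at hE2
      exact fT1 hbz hup.ne' hwp.ne' 1 b1 (by decide) (by push_cast; rw [hu8, a]; decide)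
        (by push_cast; rw [hu8, hw8, hE2]; decide) (by push_cast; rw [hw8, c]; decide)
    · rw [a, c] at hE2
      exact bas3 1 1 (by push_cast; rw [a]; decide) (by push_cast; rw [hu8, hE2]; decide)
        (by push_cast; rw [hb8, c]; decide)
    · rw [a, c] at hE2
      exact fT2 hbz hbp.ne' hwp.ne' 1 b1 (by decide) (by push_cast; rw [hb8, a]; decide)
        (by push_cast; rw [hw8, hE2]; decide) (by push_cast; rw [hb8, hw8, c]; decide)
    · rw [a, c] at hE2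
      exact fT0 hup.ne' hbp.ne' 1 b1 (by decide) (by push_cast; rw [hu8, hb8, a]; decide)
        (by push_cast; rw [hu8, hE2]; decide) (by push_cast; rw [hb8, c]; decide)
    · rw [a, c] at hE2
      exact fT1 hbz hup.ne' hwp.ne' 5 b5 (by decide) (by push_cast; rw [hu8, a]; decide)
        (by push_cast; rw [hu8, hw8, hE2]; decide) (by push_cast; rw [hw8, c]; decide)

end Pool.Agent.L0h61.SL
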